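import Pool.Agent.Helper87.BK.Final

/-!
# The comparison map of the powers of `SL(2, ℝ)` is injective in every degree
-/

set_option autoImplicit false

open scoped MatrixGroups

namespace Pool.Agent.Results.MP_6f8b02_al.SLTwoPowers

/-- Let `G` be the product of `r` copies of `SL(2, ℝ)` (`r` any natural number). For every degree
`k + 1 ≥ 1`: if a continuous bounded invariant cocycle is the coboundary of a continuous invariant
cochain, then it is the coboundary of a continuous bounded invariant cochain; and if the degree is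
odd or larger than `2 r`, then every continuous bounded invariant cocycle is the coboundary of a
continuous bounded invariant cochain. -/
theorem result :
    ∀ r k : ℕ, ∀ b : (Fin (k + 2) → (Fin r → SL(2, ℝ))) → ℝ, Continuous b →
      (∀ (g : Fin r → SL(2, ℝ)) (x : Fin (k + 2) → (Fin r → SL(2, ℝ))),
        b (fun j => g * x j) = b x) →
      (∃ C : ℝ, ∀ x : Fin (k + 2) → (Fin r → SL(2, ℝ)), |b x| ≤ C) →
      ((∃ h : (Fin (k + 1) → (Fin r → SL(2, ℝ))) → ℝ, Continuous h ∧
          (∀ (g : Fin r → SL(2, ℝ)) (x : Fin (k + 1) → (Fin r → SL(2, ℝ))),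
            h (fun j => g * x j) = h x) ∧
          ∀ x : Fin (k + 2) → (Fin r → SL(2, ℝ)),
            b x = ∑ i : Fin (k + 2), (-1 : ℝ) ^ (i : ℕ) * h (fun j => x (Fin.succAbove i j))) ∨
        ((Odd (k + 1) ∨ 2 * r < k + 1) ∧ ∀ x : Fin (k + 3) → (Fin r → SL(2, ℝ)),
          ∑ i : Fin (k + 3), (-1 : ℝ) ^ (i : ℕ) * b (fun j => x (Fin.succAbove i j)) = 0)) →
      ∃ h' : (Fin (k + 1) → (Fin r → SL(2, ℝ))) → ℝ, Continuous h' ∧
        (∀ (g : Fin r → SL(2, ℝ)) (x : Fin (k + 1) → (Fin r → SL(2, ℝ))),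
          h' (fun j => g * x j) = h' x) ∧
        (∃ C : ℝ, ∀ x : Fin (k + 1) → (Fin r → SL(2, ℝ)), |h' x| ≤ C) ∧
        ∀ x : Fin (k + 2) → (Fin r → SL(2, ℝ)),
          b x = ∑ i : Fin (k + 2), (-1 : ℝ) ^ (i : ℕ) * h' (fun j => x (Fin.succAbove i j)) := by
  intro r k b hc hi hb h
  rcases h with ⟨v, hv, hvi, hbv⟩ | ⟨hk, hz⟩
  · exact Helper87.BK.fin_of_cinj (Helper87.BK.cinj_G_pow r (k + 1) (by omega)) b hc hi hb v hv hvi
      hbv
  · exact Helper87.BK.fin_of_van (Helper87.BK.van_G_pow r (k + 1) (by omega) hk) b hc hi hb hz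

end Pool.Agent.Results.MP_6f8b02_al.SLTwoPowers
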